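import Pool.Agent.U231.FR.NcAll

/-!
# The noncommutative conjecture of Beilinson and products with varieties of Fermat type

Let `κ` be a finite field with `q` elements, of characteristic `p`, and `𝒱` a class of smooth projective
varieties over `κ`, closed under products, with Chow groups `A` with rational coefficients and a Weil
cohomology theory `H` (framework of helper492 and helper484: `TheoryData`, `IsChow`, `IsWeil`). Let `X_i` be
varieties in `𝒱` **of Fermat type** of different prime degrees `N_i` and of lengths at most `s_i`
(`IsFermatType`): the cohomology of `X_i` is generated by the classes of cycles and a subspace `T_i`, stable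
under the Frobenius, such that each eigenvalue of the Frobenius on `T_i` is, up to a root of unity and a
power of `q`, a product `∏_{a ∈ A} g(θ ^ a)` of at most `s_i` Gauss sums over `κ`, where `θ` is a
multiplicative character of `κ` of order `N_i`, and where the multiset `A + p A + ⋯ + p ^ (f - 1) A`, `f` the
order of `p` modulo `N_i`, is not symmetric, i.e. not invariant under `a ↦ -a`.

By the theorem of Weil the diagonal hypersurfaces `∑ c_j x_j ^ N = 0` of dimension `n` over `κ` (for
`q ≡ 1` modulo `N`) and their powers and products are of this form with `s = n + 2` (for products: the sum
of these numbers), if the classes with symmetric `A + p A + ⋯` are algebraic. For `p ≡ 1` modulo `N` the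
condition on the multiset is that `A` is not symmetric, and **the algebraicity for symmetric `A` is known**
for `c_j = 1`, and in general after a finite extension of `κ` (linear subspaces, Ran, Shioda and Katsura).

Let `Z` be **any** variety in `𝒱`, let `B` be the set of the eigenvalues `β` of the Frobenius on
`H(Z)`, and suppose that they are algebraic (theorem of Deligne). Let `f_i` be the order of `p` modulo
`N_i`. Suppose that for all `β` in `B` and all `i` there is an `m > 0` such that (`IsSmallBase`, `IsFermatBase`)

* the field `F = ℚ(β ^ m) ∩ ℚ(ζ_{N_i})`, `ζ_N` a root of unity of order `N`, is real (equivalently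
  `(N_i - 1) / [F : ℚ]` is even); for instance `N_i` is odd and unramified in the field `ℚ(β ^ m)`;
* or `N_i > s_i f_i [F : ℚ] + 1`; or `N_i = 2`.

**So the theorem applies to all prime numbers `N_i` with finitely many exceptions, which depend only on
the fields `ℚ(β)`. For the other primes there is no condition at all on the `X_i`: they may be of any
dimension and products of any number of factors, and `s_i` and `f_i` are arbitrary.**
Finally suppose that homologically trivial self-correspondences of degree zero of the products `V` of `Z`
and some of the `X_i` are nilpotent. This is known for example if `Z` is dominated by a product of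
curves and the `X_i` are diagonal hypersurfaces (Kimura; Shioda and Katsura).

Let `𝒜` be a smooth proper dg category whose noncommutative motive with rational coefficients is a
direct summand of the one of `Z`, for instance the category of perfect complexes on `Z`, or a
component of a semi-orthogonal decomposition of it. It is given by an idempotent `e` in the ring
`K_0(Z × Z)_ℚ`, which is identified with `CH(Z × Z)_ℚ` (all degrees together) by the Chern
character multiplied by the square root of the Todd class. Let `X_L` be the product of the `X_i` for
`i` in a finite set `L`. The noncommutative motive of the dg category `perf(X_L) ⊗ 𝒜` is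
`(X_L × Z, 1 × e)` (`productOf X Z L`, `relativeOf X e L`).

**Theorem.** Under these hypotheses
* **`Ker (χ_ℚ) = 0` for `perf(X_L) ⊗ 𝒜` if and only if `Ker (χ_ℚ) = 0` for `𝒜`**: the noncommutative
  conjecture of Beilinson for `perf(X_L) ⊗ 𝒜` is equivalent to the one for `𝒜`, for all `𝒜`;
* for `i` not in `L` there are finitely many algebraic cycles `D j` on `X_i`, the same for all `𝒜`, with
  `K_0(perf(X_i × X_L) ⊗ 𝒜)_ℚ = ⨁ D j × K_0(perf(X_L) ⊗ 𝒜)_ℚ`, and the same for the kernels of the Euler
  pairings.

No case of the conjectures of Tate and Beilinson is assumed.

For example the `X_i` may be the diagonal hypersurfaces `∑ x_j ^ N_i = 0`, of any dimensions `n_i`, of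
different odd prime degrees `N_i` dividing `p - 1`, and `Z` a curve or an abelian variety, if the `N_i` are
unramified in the fields of the eigenvalues of Frobenius on the cohomology of `Z`.

The earlier results for this problem are about abelian varieties `A` and dg categories
`perf(A) ⊗ 𝒜`. The varieties of Fermat type are of a different kind: their cohomology is in arbitrary
degrees, the primitive part of a diagonal hypersurface of prime degree `N` decomposes in many pieces
of rank `(N - 1) / f`, among them pieces of very small level, and there is no exceptional set.

The proof. Let `α_i` be eigenvalues of the Frobenius on the `T_i`, for `i` in a nonempty set `I`, and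
suppose that `β ∏ α_i` is a power of `q` up to a root of unity. By the theorem of Stickelberger for the
conjugates of Gauss sums the function `t ↦ ∑_{x ∈ A + p A + ⋯} saw(t x)` on `(ℤ/N_i)ˣ` is invariant
under the subgroup with the fixed field `F`. The values `L(1, χ)` are not zero, so the
sawtooth functions `t ↦ saw(t x)` are independent up to the sign of `x`, and the odd part of the
multiplicity function of `A + p A + ⋯` is invariant under this subgroup and not zero. So `-1` is not
in the subgroup (`F` is not real), and the support of `A + p A + ⋯` contains a coset of it: at least
`(N_i - 1) / [F : ℚ]` elements, but at most `s_i f_i`, a contradiction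
(`U231/FF`, as in my hand-ins `FermatFactors` for other conjectures, see the claim file).
Let `P` be the projector given by the `D j` and dual classes. A polynomial in the Frobenius shows that
`1 - P` is nilpotent on the Chow groups of `X_i × V`, so zero; and `P` commutes with `1 × e`, although
`e` is not homogeneous.

helper231 (`Pool/Agent/U231/FF`, `U231/FR`); the projectors of the proof are from the library of helper876
(`N876/CG`), and the part on noncommutative motives is from the library of helper484 (`W484/CK`), built on
helpers 492 and 550.
-/

set_option autoImplicit false

open Polynomial CategoryTheory AlgebraicGeometry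

namespace Pool.Agent.Results.MP_dd457d_ag.FermatFactors

open Pool.Agent.H914 Pool.Agent.H914.VarClass Pool.Agent.H914.VarClass.Obj Pool.Agent.W492.BB
  Pool.Agent.W484.CK Pool.Agent.U231.FF Pool.Agent.U231.FR.Base Pool.Agent.U231.FR.Nc

/-- **The noncommutative conjecture of Beilinson for products with varieties of Fermat type of different prime
degrees.** -/
theorem result (p : ℕ) [Fact p.Prime] (κ : Type) [Field κ] [Fintype κ] [CharP κ p] {ι : Type}
    (N s : ι → ℕ) {𝒱 : VarClass κ} (A : TheoryData.{0, 0, 0} 𝒱 ℚ) [IsChow A]
    (hI : IsoInvariant A) {K : Type} [Field K] [IsAlgClosed K] [CharZero K]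
    (H : WeilTheoryData.{0, 0, 0} A K) [IsWeil H] (τ : K →+* ℂ) (F : ∀ X : 𝒱.Obj, X ⟶ X)
    (X : ι → 𝒱.Obj) (Z : 𝒱.Obj) (h : IsFermatBase p N s H τ F X Z)
    (hnil : ∀ L, Nilpotence H (productOf X Z L)) :
    (∀ L : List ι, L.Nodup →
      (∀ e : A.A (Z.prod Z), IsIdempotent A e →
        (IsNondegenerate H (relativeOf X e L) ↔ IsNondegenerate H e)) ∧
      ∀ i, i ∉ L → ∃ (J : Type) (_ : Fintype J) (deg : J → ℕ) (D : J → A.A (X i)),
        (∀ j, A.Deg (deg j) (D j)) ∧ ∀ e : A.A (Z.prod Z), IsIdempotent A e →
          KZeroKunneth H (X i) (relativeOf X e L) D) ∧
    -- the degree in the condition on `Z` is at most the degree of `β`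
    (∀ (n : ℕ) (β : ℂ), IsAlgebraic ℚ β → commonDegree n β ≤ (minpoly ℚ β).natDegree) :=
  ⟨fun _ hL => beilinsonAll h hI hnil hL, fun _ _ hβ => commonDegree_le hβ⟩

end Pool.Agent.Results.MP_dd457d_ag.FermatFactors
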