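import Pool.Agent.U226.FX.Chi

/-!
# The kernel of the Euler pairing on products with the powers of a dg category

Let `A` be a smooth proper dg category over a finite field `k` whose noncommutative motive satisfies the
sign conjecture `C⁺` and whose cohomology `TP (A) [1/p]` is not zero, of total dimension `b`; this holds for
`A = perf(X)` for ALL nonempty smooth projective `X` over `k` (Katz, Messing), and for their
semi-orthogonal components with `C⁺`. Let `𝒞` be an ARBITRARY smooth proper dg category over `k`. Put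
`E_n = (A ⊗ A^op)^⊗n` and `B_n = 𝒞 ⊗ E_n`, let `κ (n) = dim Ker (χ_ℚ)` for `B_n`, a number or infinity,
and let `ρ_𝒞 (n)`, `ρ (n)` be the (finite) ranks of `K_0 (B_n) / Ker χ` and `K_0 (E_n) / Ker χ`.
The conjecture of the question for `B_n` is `κ (n) = 0`.

Theorem.
(1) `κ (n) / ρ (n)` and `ρ_𝒞 (n) / ρ (n)` converge for `n → ∞`; the limits `N` and `d` are natural numbers
or infinity, and `κ (n) / ρ_𝒞 (n)` converges to `N / d` if `0 < d < ∞`. `N = 0` if and only if the
conjecture holds for all `B_n`. If `𝒞` satisfies `C⁺` then `d` is at most the dimension of the cohomology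
of `𝒞`; so then the limit of the shares is a rational number with a bounded denominator, or infinity.
(2) One inequality suffices: if `2 κ (n) < ρ (n)` for one `n ≥ 128 (m + 1) ^ 2 b ^ (4 m + 12)` then the
conjecture holds for `B_m`. The bound does not depend on `𝒞`; for `m = 0` this is a criterion for `𝒞` itself.
If the conjecture fails for `B_m` then `κ (n) ≥ b ^ (2 n) / (2 (n + 1) ^ (b ^ 2))` for ALL those `n`, where
`b ^ (2 n)` is the dimension of the cohomology of `E_n`.
(3) Let the Euler pairing of some `B_p` be nonzero (`d > 0`) and `N = k` be finite, for example let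
`κ (n) ≤ c ρ (n)` for infinitely many `n`, for ONE such `𝒞`. Then for all classes `α` in the kernel of the
Euler pairing of `E_n` the exterior power `α ⊗ ⋯ ⊗ α` (`k + 1` factors) is torsion, numerically trivial
endomorphisms `y` of `U(A)^⊗n` satisfy `y ^ (k + 1) = 0`, and the noncommutative motive `U(A)` is
finite-dimensional in the sense of Kimura. So if `U(A)` is not finite-dimensional then for EVERY such `𝒞`
the kernels on `B_n` grow faster than every multiple of `ρ (n)`.

The starting results of this problem concern products with abelian varieties; the starting result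
`MP_4960c7_ag.ProductsVanish` (powers of a scheme `X`, without a factor `𝒞`) is the commutative case
`𝒞 = k` of (1) and (3). New are the arbitrary factor `𝒞`, which need not satisfy `C⁺`, the noncommutative
setting without self-duality, and the bounds in (2).

The setting. `C` is the category `NChow(k)_ℚ` of noncommutative Chow motives, a rigid symmetric monoidal
pseudo-abelian `ℚ`-linear category with `Hom (1, U(A)) = K_0(A)_ℚ`, `T = U(A)`, `T^∨ = U(A^op)`,
`B = U(𝒞)`, `B ⊗ tp (T ⊗ T^∨) n = U(B_n)`; the numerically trivial morphisms are given by the kernel of the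
Euler pairing (Marcolli, Tabuada). `R` is given by `TP(-)[1/p]` with coefficients extended to an
algebraically closed field.

Idea of the proof. The functor `Y ↦ Ker χ_ℚ (𝒞 ⊗ Y)` is additive; the law for the values of additive
functors on the powers of an object with `C⁺` (starting library `N64.AF`) gives the limit `N`, the
criterion, and, if `N = k` is finite, that `k` successive numerically trivial morphisms between the `U(E_n)`
act as zero on it. Let `β` be a class on `B_p` with a dual class. For a numerically trivial `g` the product of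
`β` and `g` is in the kernel, so `β ⊗ (g ≫ h) = 0` for each composition `h` of `k` numerically trivial
morphisms, and one contracts with the dual class of `β`; so `g ≫ h = 0`, and by duality this holds for
morphisms `g` between all powers.
-/

set_option autoImplicit false

open CategoryTheory MonoidalCategory Module Filter Topology
open Pool.Agent.Y112.SR Pool.Agent.Y112.KD Pool.Agent.N64.AF Pool.Agent.U226.FX
open scoped ENNReal

namespace Pool.Agent.Results.MP_dd457d_ag.FixedFactorLaw

universe v u w

/-- The law for the numerically trivial classes on the products of a fixed arbitrary `B` with the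
powers of `T ⊗ Tᘁ`. -/
theorem result {C : Type u} [Category.{v} C] [Preadditive C] [MonoidalCategory C]
    [MonoidalPreadditive C] [SymmetricCategory C] [RightRigidCategory C]
    [Linear ℚ C] [MonoidalLinear ℚ C] [IsIdempotentComplete C]
    {K : Type w} [Field K] [IsAlgClosed K] [Algebra ℚ K] (R : SuperRealisation C K)
    (hR : IsReal ℚ R) (T : C) (hT : R.CPlus T) (hb : 0 < bt R T) (B : C) :
    ∃ N d : ℕ∞, RatioTo ℚ (T ⊗ Tᘁ) (numDim ℚ B (T ⊗ Tᘁ)) N ∧
      RatioTo ℚ (T ⊗ Tᘁ) (rankSeq ℚ B (T ⊗ Tᘁ)) d ∧
      (N = 0 ↔ ∀ (n : ℕ) (α : 𝟙_ C ⟶ B ⊗ tp (T ⊗ Tᘁ) n), NumTriv α → α = 0) ∧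
      (d = 0 ↔ ∀ (n : ℕ) (α : 𝟙_ C ⟶ B ⊗ tp (T ⊗ Tᘁ) n), NumTriv α) ∧
      (R.CPlus B → d ≤ bt R B) ∧
      (d ≠ 0 → d ≠ ⊤ → Quot (numDim ℚ B (T ⊗ Tᘁ)) (rankSeq ℚ B (T ⊗ Tᘁ)) ((N : ℝ≥0∞) / d)) ∧
      (d ≠ 0 → ∀ k : ℕ, N = k →
        (∀ (n : ℕ) (α : 𝟙_ C ⟶ tp (T ⊗ Tᘁ) n), NumTriv α → tpow α (k + 1) = 0) ∧
        (∀ (n : ℕ) (y : End (tp T n)), NumTriv (y : tp T n ⟶ tp T n) → y ^ (k + 1) = 0) ∧
        Pool.Agent.R905.IsKimuraFinite T) ∧
      ∀ (m n : ℕ) (α : 𝟙_ C ⟶ B ⊗ tp (T ⊗ Tᘁ) m), NumTriv α → α ≠ 0 →
        128 * (m + 1) ^ 2 * bt R T ^ (4 * m + 12) ≤ n →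
          (numRank ℚ (tp (T ⊗ Tᘁ) n) : ℕ∞) ≤ 2 * numDim ℚ B (T ⊗ Tᘁ) n ∧
          ((bt R T ^ (2 * n) : ℕ) : ℕ∞) ≤
            (2 * (n + 1) ^ (bt R T ^ 2) : ℕ) * numDim ℚ B (T ⊗ Tᘁ) n :=
  chi_law hR hT hb B

end Pool.Agent.Results.MP_dd457d_ag.FixedFactorLaw
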